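import Mathlib
import Pool.Graph.R_seed8.Helper292.ForceCH

/-!
# Branching schemes: the combinatorial principle and its forcing translation
-/

set_option autoImplicit false

namespace Pool.Agent.H728.CS

open Cardinal Set
open Pool.Agent.Helper292.ForceCH

/-- The rows `(E a, F a)`, `a < ω₁`, are pairs of subsets of `ω₁` such that for every `y ⊆ ω₁` there
is `h ⊆ ω₁` with all initial segments of `(y, h)` being initial segments of rows. -/
def Full (E F : Om → Om → Prop) : Prop :=
  ∀ y : Om → Prop, ∃ h : Om → Prop, ∀ b : Om, ∃ a : Om, ∀ c, c < b →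
    ((y c ↔ E a c) ∧ (h c ↔ F a c))

/-- There is a branching scheme for the rows `(E a, F a)`: a set `Q` with a transitive relation `le`,
reflexive on its field, and for each `q` subsets `T q`, `Fr q`, `Y q`, `H q` of `ω₁`, such that:
`(Y q, H q)` agrees on `T q` with some row; if `q ≤ r` then `T r ⊆ T q`, and `(Y q, H q)` and
`(Y r, H r)` agree on `T r`; all large enough `c` belong to `Fr q`; and for every decreasing sequence
`s n`, every `c` in all the sets `Fr (s n)`, every `b < ω₁` and every value `e`, there is `q` below all
`s n` such that `T q` contains `c` and all `a < b`, and `e` is the value of `Y q` at `c`. -/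
def Scheme (E F : Om → Om → Prop) : Prop :=
  ∃ (Q : Type) (le : Q → Q → Prop) (T Fr Y H : Q → Om → Prop),
    (∃ q, le q q) ∧
    (∀ q r, le q r → (le q q ∧ le r r)) ∧
    (∀ q r s, le q r → le r s → le q s) ∧
    (∀ q r c, le q r → T r c → (T q c ∧ ((Y q c ↔ Y r c) ∧ (H q c ↔ H r c)))) ∧
    (∀ q, le q q → ∃ a, ∀ c, T q c → ((Y q c ↔ E a c) ∧ (H q c ↔ F a c))) ∧
    (∀ q, ∃ b, ∀ c, b < c → Fr q c) ∧
    (∀ s : ℕ → Q, (∀ n, le (s (n + 1)) (s n)) → ∀ c, (∀ n, Fr (s n) c) → ∀ (b : Om) (e : Bool),
      ∃ q, (∀ n, le q (s n)) ∧ (∀ a, a < b → T q a) ∧ T q c ∧ (Y q c ↔ e = true))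

/-- Full systems of rows have branching schemes. -/
def SchemePrinciple : Prop := ∀ E F : Om → Om → Prop, Full E F → Scheme E F

section
variable (P : Type) [Preorder P]

/-- The translation of `Full` into the forcing language. -/
def FullN (E F : Om → Om → Set P) : Set P :=
  fall fun y : Om → Set P => fex fun h : Om → Set P => fall fun b : Om => fex fun a : Om =>
    fall fun c : Om => fall fun _ : c < b =>
      fand (fiff (meets (y c)) (meets (E a c))) (fiff (meets (h c)) (meets (F a c)))

/-- The translation of `Scheme` into the forcing language. -/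
def SchemeN (E F : Om → Om → Set P) : Set P :=
  fex fun Q : Type => fex fun le : Q → Q → Set P =>
  fex fun T : Q → Om → Set P => fex fun Fr : Q → Om → Set P =>
  fex fun Y : Q → Om → Set P => fex fun H : Q → Om → Set P =>
    fand (fex fun q => meets (le q q)) <|
    fand (fall fun q => fall fun r => fimp (meets (le q r)) (fand (meets (le q q)) (meets (le r r)))) <|
    fand (fall fun q => fall fun r => fall fun s =>
      fimp (meets (le q r)) (fimp (meets (le r s)) (meets (le q s)))) <|
    fand (fall fun q => fall fun r => fall fun c => fimp (meets (le q r)) (fimp (meets (T r c))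
      (fand (meets (T q c)) (fand (fiff (meets (Y q c)) (meets (Y r c)))
        (fiff (meets (H q c)) (meets (H r c))))))) <|
    fand (fall fun q => fimp (meets (le q q)) (fex fun a : Om => fall fun c => fimp (meets (T q c))
      (fand (fiff (meets (Y q c)) (meets (E a c))) (fiff (meets (H q c)) (meets (F a c)))))) <|
    fand (fall fun q => fex fun b : Om => fall fun c => fall fun _ : b < c => meets (Fr q c)) <|
    fall fun s : ℕ → Q → Set P => fimp (IsFun s) <|
      fimp (fall fun n => fall fun q => fall fun r =>
        fimp (fand (meets (s n q)) (meets (s (n + 1) r))) (meets (le r q))) <|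
      fall fun c : Om => fimp (fall fun n => fall fun q => fimp (meets (s n q)) (meets (Fr q c))) <|
      fall fun b : Om => fall fun e : Bool => fex fun q =>
        fand (fall fun n => fall fun r => fimp (meets (s n r)) (meets (le q r))) <|
        fand (fall fun a : Om => fall fun _ : a < b => meets (T q a)) <|
        fand (meets (T q c)) (fiff (meets (Y q c)) (fground (e = true)))

/-- The translation of `SchemePrinciple` into the forcing language. -/
def SchemePrincipleN : Set P :=
  fall fun E : Om → Om → Set P => fall fun F : Om → Om → Set P =>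
    fimp (FullN P E F) (SchemeN P E F)

end

end Pool.Agent.H728.CS
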