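import Mathlib
import Pool.Agent.H728.CS.Defs

/-!
# A branching scheme yields countably many branches with uncountably many traces
-/

set_option autoImplicit false

namespace Pool.Agent.H728.CS

open Cardinal Set
open Pool.Agent.Helper292.ForceCH

theorem bound_of_countable {S : Set Om} (hS : S.Countable) : ∃ a : Om, ∀ x ∈ S, x < a := by
  rcases S.eq_empty_or_nonempty with rfl | hne
  · exact ⟨Classical.arbitrary Om, fun x hx => absurd hx (notMem_empty x)⟩
  · obtain ⟨f, rfl⟩ := hS.exists_eq_range hne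
    obtain ⟨a, ha⟩ := exists_bound f
    exact ⟨a, by rintro _ ⟨n, rfl⟩; exact ha n⟩

/-- recursion of length `ω₁` in a `σ`-closed structure -/
theorem rec_lemma {R : Type} (le : R → R → Prop) (htr : ∀ a b c, le a b → le b c → le a c)
    (hrf : ∀ a b, le a b → le a a) (Φ : Om → R → Prop) (r0 : R) (h0 : le r0 r0)
    (hlim : ∀ s : ℕ → R, (∀ n, le (s (n + 1)) (s n)) → (∀ n, le (s n) r0) →
      ∀ ξ, ∃ r, (∀ n, le r (s n)) ∧ Φ ξ r) :
    ∃ r : Om → R, ∀ ξ, Φ ξ (r ξ) ∧ le (r ξ) r0 ∧ ∀ η, η < ξ → le (r ξ) (r η) := by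
  classical
  let step : ∀ ξ : Om, (∀ η : Om, η < ξ → R) → R := fun ξ ih =>
    if h : ∃ x, Φ ξ x ∧ le x r0 ∧ ∀ η (hη : η < ξ), le x (ih η hη) then h.choose else r0
  let r : Om → R := (wellFounded_lt (α := Om)).fix step
  have hr : ∀ ξ, r ξ = step ξ (fun η _ => r η) := fun ξ =>
    (wellFounded_lt (α := Om)).fix_eq step ξ
  refine ⟨r, fun ξ => ?_⟩
  induction ξ using (wellFounded_lt (α := Om)).induction with
  | _ ξ ih =>
    have hex : ∃ x, Φ ξ x ∧ le x r0 ∧ ∀ η (hη : η < ξ), le x (r η) := by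
      by_cases hne : (Iio ξ).Nonempty
      · have hc : (Iio ξ).Countable := Set.countable_coe_iff.1 (countable_Iio ξ)
        obtain ⟨g, hg⟩ := hc.exists_eq_range hne
        have hgξ : ∀ n, g n < ξ := fun n => by
          have : g n ∈ Iio ξ := by rw [hg]; exact mem_range_self n
          exact this
        let ζ : ℕ → Om := fun n => Nat.rec (g 0) (fun n z => max z (g (n + 1))) n
        have hζs : ∀ n, ζ (n + 1) = max (ζ n) (g (n + 1)) := fun n => rfl
        have hζ : ∀ n, ζ n < ξ := by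
          intro n
          induction n with
          | zero => exact hgξ 0
          | succ n ihn => rw [hζs]; exact max_lt ihn (hgξ _)
        have hgζ : ∀ n, g n ≤ ζ n := by
          intro n
          cases n with
          | zero => exact le_rfl
          | succ n => rw [hζs]; exact le_max_right _ _
        have hle : ∀ a b : Om, a ≤ b → b < ξ → le (r b) (r a) := by
          intro a b hab hb
          rcases hab.eq_or_lt with rfl | hlt
          · exact hrf _ _ (ih a hb).2.1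
          · exact (ih b hb).2.2 a hlt
        obtain ⟨x, hx, hΦ⟩ := hlim (fun n => r (ζ n)) (fun n => by
          refine hle _ _ ?_ (hζ (n + 1))
          rw [hζs]; exact le_max_left _ _) (fun n => (ih _ (hζ n)).2.1) ξ
        refine ⟨x, hΦ, htr _ _ _ (hx 0) (ih _ (hζ 0)).2.1, fun η hη => ?_⟩
        have : η ∈ range g := by rw [← hg]; exact hη
        obtain ⟨n, rfl⟩ := this
        exact htr _ _ _ (hx n) (hle _ _ (hgζ n) (hζ n))
      · obtain ⟨x, hx, hΦ⟩ := hlim (fun _ => r0) (fun _ => h0) (fun _ => h0) ξ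
        refine ⟨x, hΦ, hx 0, fun η hη => absurd ⟨η, hη⟩ hne⟩
    rw [hr ξ]
    have h1 : step ξ (fun η _ => r η) = hex.choose := dif_pos hex
    rw [h1]
    exact hex.choose_spec

/-- uncountably many different sets of natural numbers -/
theorem exists_family : ∃ A : Om → Set ℕ, Function.Injective A := by
  have h : #Om ≤ #(Set ℕ) := by
    rw [mk_toType, card_ord, mk_set, mk_nat, two_power_aleph0]
    exact aleph_one_le_continuum
  obtain ⟨f⟩ := h
  exact ⟨f, f.injective⟩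

theorem uncountable_Om : ¬ (univ : Set Om).Countable := by
  intro h
  obtain ⟨a, ha⟩ := bound_of_countable h
  exact lt_irrefl a (ha a (mem_univ a))

theorem core {E F : Om → Om → Prop} (hS : Scheme E F) (M : Om → Set (Finset Om))
    (hM : ∀ j, (M j).Countable) (hrow : ∀ a j, E a j ↔ ∃ d ∈ M j, ∀ c ∈ d, F a c) :
    ∃ G : ℕ → Om → Prop, (∀ k b, ∃ a, ∀ c, c < b → (G k c ↔ F a c)) ∧
      ¬ {A : Set ℕ | ∃ d : Finset Om, A = {k | ∀ c ∈ d, G k c}}.Countable := by
  classical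
  obtain ⟨Q, le, T, Fr, Y, H, ⟨q0, hq0⟩, hrf, htr, hco, htrace, hfr, hsp⟩ := hS
  choose fb hfb using hfr
  -- a bound for the elements of the marks in `M j`
  have hMb : ∀ j, ∃ b : Om, ∀ d ∈ M j, ∀ c ∈ d, c < b := by
    intro j
    have hc : (⋃ d ∈ M j, (d : Set Om)).Countable :=
      (hM j).biUnion fun d _ => d.countable_toSet
    obtain ⟨b, hb⟩ := bound_of_countable hc
    exact ⟨b, fun d hd c hc => hb c (mem_biUnion hd hc)⟩
  choose mb hmb using hMb
  -- splitting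
  have L2 : ∀ s : ℕ → Q, (∀ n, le (s (n + 1)) (s n)) → ∀ c, (∀ n, fb (s n) < c) →
      ∀ (b : Om) (e : Bool), ∃ q, (∀ n, le q (s n)) ∧ (∀ a, a < b → T q a) ∧
        (∀ d ∈ M c, ∀ x ∈ d, T q x) ∧ (e = true → ∃ d ∈ M c, ∀ x ∈ d, H q x) ∧
        (e = false → ∀ d ∈ M c, ¬ ∀ x ∈ d, H q x) := by
    intro s hs c hc b e
    obtain ⟨q, hq, hqT, hqc, hqY⟩ := hsp s hs c (fun n => hfb _ _ (hc n)) (max b (mb c)) e
    obtain ⟨a, ha⟩ := htrace q (hrf _ _ (hq 0)).1
    have hdT : ∀ d ∈ M c, ∀ x ∈ d, T q x := fun d hd x hx =>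
      hqT x ((hmb c d hd x hx).trans_le (le_max_right _ _))
    refine ⟨q, hq, fun a' ha' => hqT a' (ha'.trans_le (le_max_left _ _)), hdT, fun he => ?_,
      fun he d hd hH => ?_⟩
    · have h1 : E a c := (ha c hqc).1.1 (hqY.2 he)
      obtain ⟨d, hd, hd2⟩ := (hrow a c).1 h1
      exact ⟨d, hd, fun x hx => (ha x (hdT d hd x hx)).2.2 (hd2 x hx)⟩
    · have h1 : E a c := (hrow a c).2 ⟨d, hd, fun x hx => (ha x (hdT d hd x hx)).2.1 (hH x hx)⟩
      have h2 : e = true := hqY.1 ((ha c hqc).1.2 h1)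
      rw [he] at h2
      exact Bool.noConfusion h2
  -- lower bounds
  have L1 : ∀ s : ℕ → Q, (∀ n, le (s (n + 1)) (s n)) → ∀ b : Om,
      ∃ q, (∀ n, le q (s n)) ∧ (∀ a, a < b → T q a) := by
    intro s hs b
    obtain ⟨c, hc⟩ := exists_bound (fun n => fb (s n))
    obtain ⟨q, hq, hqT, -⟩ := L2 s hs c hc b true
    exact ⟨q, hq, hqT⟩
  -- the Baire category argument
  have L3 : ∃ q1, le q1 q1 ∧ ∀ p : ℕ → Q, (∀ k, le (p k) q1) → ∀ j0 : Om, ∃ j, j0 < j ∧
      ∃ d ∈ M j, ∀ k, ∃ q', le q' (p k) ∧ ∀ x ∈ d, T q' x ∧ H q' x := by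
    by_contra hcon
    push Not at hcon
    choose p hp j0 hj0 using hcon
    let t : List ℕ → {q : Q // le q q} := fun l =>
      List.rec ⟨q0, hq0⟩ (fun k _ ih => ⟨p ih.1 ih.2 k, (hrf _ _ (hp ih.1 ih.2 k)).1⟩) l
    have ht : ∀ k l, (t (k :: l)).1 = p (t l).1 (t l).2 k := fun k l => rfl
    obtain ⟨j, hj⟩ := bound_of_countable (S := range (fun l : List ℕ => j0 (t l).1 (t l).2) ∪
      range (fun l : List ℕ => fb (t l).1)) ((countable_range _).union (countable_range _))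
    have hj1 : ∀ l, j0 (t l).1 (t l).2 < j := fun l => hj _ (Or.inl (mem_range_self l))
    have hj2 : ∀ l, fb (t l).1 < j := fun l => hj _ (Or.inr (mem_range_self l))
    have hMne : (M j).Nonempty := by
      obtain ⟨q, -, -, -, h, -⟩ := L2 (fun _ => q0) (fun _ => hq0) j (fun _ => hj2 []) j true
      obtain ⟨d, hd, -⟩ := h rfl
      exact ⟨d, hd⟩
    obtain ⟨D, hD⟩ := (hM j).exists_eq_range hMne
    have hDM : ∀ n, D n ∈ M j := fun n => by rw [hD]; exact mem_range_self n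
    choose κ hκ using fun (l : List ℕ) (n : ℕ) => hj0 (t l).1 (t l).2 j (hj1 l) (D n) (hDM n)
    let x : ℕ → List ℕ := fun n => Nat.rec [] (fun n l => κ l n :: l) n
    have hx : ∀ n, x (n + 1) = κ (x n) n :: x n := fun n => rfl
    obtain ⟨q, hq, -, hqT, h, -⟩ := L2 (fun n => (t (x n)).1) (fun n => by
      show le (t (x (n + 1))).1 (t (x n)).1
      rw [hx, ht]
      exact hp _ _ _) j (fun n => hj2 _) j true
    obtain ⟨d, hd, hd2⟩ := h rfl
    have : d ∈ range D := by rw [← hD]; exact hd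
    obtain ⟨n, rfl⟩ := this
    have h1 := hq (n + 1)
    rw [hx, ht] at h1
    obtain ⟨y, hy, hy2⟩ := hκ (x n) n q h1
    exact hy2 (hqT _ hd y hy) (hd2 y hy)
  obtain ⟨q1, hq1, hb⟩ := L3
  obtain ⟨A, hA⟩ := exists_family
  -- the recursion
  obtain ⟨r, hr⟩ := rec_lemma (R := ℕ → Q) (fun a b => ∀ k, le (a k) (b k))
    (fun a b c h h' k => htr _ _ _ (h k) (h' k)) (fun a b h k => (hrf _ _ (h k)).1)
    (fun ξ a => (∀ k x, x < ξ → T (a k) x) ∧ ∃ d : Finset Om, ∀ k, (∀ x ∈ d, T (a k) x) ∧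
      (k ∈ A ξ ↔ ∀ x ∈ d, H (a k) x)) (fun _ => q1) (fun _ => hq1) (by
    intro s hs hs1 ξ
    choose p hp hpT using fun k => L1 (fun n => s n k) (fun n => hs n k) ξ
    have hpq : ∀ k, le (p k) q1 := fun k => htr _ _ _ (hp k 0) (hs1 0 k)
    obtain ⟨j0, hj0⟩ := exists_bound (fun k => fb (p k))
    obtain ⟨j, hj, d, hd, hd2⟩ := hb p hpq j0
    have hst : ∀ k, ∃ q, le q (p k) ∧ (∀ x ∈ d, T q x) ∧ (k ∈ A ξ ↔ ∀ x ∈ d, H q x) := by
      intro k
      by_cases hk : k ∈ A ξ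
      · obtain ⟨q', hq', h1⟩ := hd2 k
        exact ⟨q', hq', fun x hx => (h1 x hx).1, fun _ x hx => (h1 x hx).2, fun _ => hk⟩
      · obtain ⟨q', hq', -, h1, -, h2⟩ := L2 (fun _ => p k) (fun _ => (hrf _ _ (hpq k)).1) j
          (fun _ => (hj0 k).trans hj) j false
        refine ⟨q', hq' 0, h1 d hd, fun h => absurd h hk, fun h => absurd h (h2 rfl d hd)⟩
    choose q hq hqT hqA using hst
    refine ⟨q, fun n k => htr _ _ _ (hq k) (hp k n), fun k x hx => ?_, d, fun k =>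
      ⟨hqT k, hqA k⟩⟩
    exact (hco _ _ x (hq k) (hpT k x hx)).1)
  have hlt : ∀ c : Om, ∃ b : Om, c < b := fun c => exists_gt c
  choose su hsu using hlt
  have hcoh : ∀ k ξ η x, T (r ξ k) x → T (r η k) x → (H (r ξ k) x ↔ H (r η k) x) := by
    intro k ξ η x h1 h2
    rcases lt_trichotomy ξ η with h | h | h
    · exact (hco _ _ x ((hr η).2.2 ξ h k) h1).2.2.symm
    · rw [h]
    · exact (hco _ _ x ((hr ξ).2.2 η h k) h2).2.2
  have hT : ∀ k ξ x, x < ξ → T (r ξ k) x := fun k ξ x hx => (hr ξ).1.1 k x hx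
  refine ⟨fun k c => H (r (su c) k) c, fun k b => ?_, ?_⟩
  · obtain ⟨a, ha⟩ := htrace (r b k) (hrf _ _ ((hr b).2.1 k)).1
    refine ⟨a, fun c hc => ?_⟩
    rw [← (ha c (hT k b c hc)).2]
    exact hcoh k _ _ c (hT k _ c (hsu c)) (hT k b c hc)
  · intro hcount
    have hsub : range A ⊆ {A : Set ℕ | ∃ d : Finset Om, A = {k | ∀ c ∈ d, H (r (su c) k) c}} := by
      rintro _ ⟨ξ, rfl⟩
      obtain ⟨d, hd⟩ := (hr ξ).1.2
      refine ⟨d, ?_⟩
      ext k
      rw [(hd k).2]
      refine forall₂_congr fun x hx => ?_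
      exact hcoh k _ _ x ((hd k).1 x hx) (hT k _ x (hsu x))
    have h1 := hcount.mono hsub
    rw [← image_univ] at h1
    exact uncountable_Om (countable_of_injective_of_countable_image hA.injOn h1)

end Pool.Agent.H728.CS
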