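import Mathlib
import Pool.Agent.H728.CS.Core

/-!
# Countable partial functions from `Λ × ω₁`; supports
-/

set_option autoImplicit false

namespace Pool.Agent.H728.CS

open Cardinal Set
open Pool.Agent.Helper292.ForceCH hiding Cond

/-! ### General facts on the forcing language -/

section
variable {P : Type} [Preorder P]

/-- `φ` is forced as soon as it is forced densely below. -/
def Reg (φ : Set P) : Prop := ∀ p, (∀ q ≤ p, ∃ r ≤ q, r ∈ φ) → p ∈ φ

theorem reg_fnot {φ : Set P} (hd : Down φ) : Reg (fnot φ) := by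
  intro p hp q hq hqφ
  obtain ⟨r, hr, h⟩ := hp q hq
  exact h r le_rfl (hd _ hqφ _ hr)

theorem reg_fand {φ ψ : Set P} (h : Reg φ) (h' : Reg ψ) : Reg (fand φ ψ) := fun p hp =>
  ⟨h p fun q hq => (hp q hq).imp fun _ hr => ⟨hr.1, hr.2.1⟩,
    h' p fun q hq => (hp q hq).imp fun _ hr => ⟨hr.1, hr.2.2⟩⟩

theorem reg_fall {ι : Sort*} {φ : ι → Set P} (h : ∀ i, Reg (φ i)) : Reg (fall φ) :=
  fun p hp i => h i p fun q hq => (hp q hq).imp fun _ hr => ⟨hr.1, hr.2 i⟩

theorem reg_meets (N : Set P) : Reg (meets N) := fun _ hp => meets_of_dense hp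

theorem reg_fground (h : Prop) : Reg (fground (P := P) h) := by
  intro p hp
  obtain ⟨r, _, h'⟩ := hp p le_rfl
  exact h'

theorem down_fground (h : Prop) : Down (fground (P := P) h) := fun _ h _ _ => h

theorem reg_fimp {φ : Set P} (hφ : Down φ) (ψ : Set P) : Reg (fimp φ ψ) :=
  reg_fnot (down_fand hφ (down_fnot _))

theorem reg_fiff {φ ψ : Set P} (hφ : Down φ) (hψ : Down ψ) : Reg (fiff φ ψ) :=
  reg_fand (reg_fimp hφ _) (reg_fimp hψ _)

theorem down_fiff (φ ψ : Set P) : Down (fiff φ ψ) := down_fand (down_fimp _ _) (down_fimp _ _)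

theorem down_IsFun {X Y : Type} (R : X → Y → Set P) : Down (IsFun R) :=
  down_fand (down_fall fun _ => down_fex _)
    (down_fall fun _ => down_fall fun _ => down_fall fun _ => down_fimp _ _)

theorem mem_fimp' {φ ψ : Set P} (hφ : Down φ) (hψ : Reg ψ) {p : P} :
    p ∈ fimp φ ψ ↔ ∀ q ≤ p, q ∈ φ → q ∈ ψ := by
  rw [mem_fimp]
  constructor
  · intro h q hq hqφ
    exact hψ q fun r hr => h r (hr.trans hq) (hφ _ hqφ _ hr)
  · intro h q hq hqφ
    exact ⟨q, le_rfl, h q hq hqφ⟩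

theorem mem_fiff {φ ψ : Set P} (hφ : Down φ) (hφ' : Reg φ) (hψ : Down ψ) (hψ' : Reg ψ) {p : P} :
    p ∈ fiff φ ψ ↔ ∀ q ≤ p, (q ∈ φ ↔ q ∈ ψ) := by
  constructor
  · rintro ⟨h1, h2⟩ q hq
    exact ⟨fun h => (mem_fimp' hφ hψ').1 h1 q hq h, fun h => (mem_fimp' hψ hφ').1 h2 q hq h⟩
  · intro h
    exact ⟨(mem_fimp' hφ hψ').2 fun q hq h' => (h q hq).1 h',
      (mem_fimp' hψ hφ').2 fun q hq h' => (h q hq).2 h'⟩

theorem mem_fiff_meets {M N : Set P} {p : P} :
    p ∈ fiff (meets M) (meets N) ↔ ∀ q ≤ p, (q ∈ meets M ↔ q ∈ meets N) :=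
  mem_fiff (down_meets _) (reg_meets _) (down_meets _) (reg_meets _)

theorem mem_fiff_ground {M : Set P} {h : Prop} {p : P} :
    p ∈ fiff (meets M) (fground h) ↔ ∀ q ≤ p, (q ∈ meets M ↔ h) :=
  mem_fiff (down_meets _) (reg_meets _) (down_fground _) (reg_fground _)

theorem mem_meets_down {N : Set P} (hN : Down N) {p : P} :
    p ∈ meets N ↔ ∀ q ≤ p, ∃ r ≤ q, r ∈ N := by
  constructor
  · intro h q hq
    obtain ⟨r, hr, s, hs, hrs⟩ := h q hq
    exact ⟨r, hr, hN s hs r hrs⟩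
  · intro h q hq
    obtain ⟨r, hr, h'⟩ := h q hq
    exact ⟨r, hr, r, h', le_rfl⟩

theorem meets_of_mem {N : Set P} (hN : Down N) {p : P} (h : p ∈ N) : p ∈ meets N :=
  (mem_meets_down hN).2 fun q hq => ⟨q, le_rfl, hN _ h _ hq⟩

theorem meets_ground {h : Prop} {p : P} : p ∈ meets {_q : P | h} ↔ h := by
  constructor
  · intro h'
    obtain ⟨r, _, s, hs, _⟩ := h' p le_rfl
    exact hs
  · intro h' q _
    exact ⟨q, le_rfl, q, h', le_rfl⟩

theorem isFun_unique {X Y : Type} {R : X → Y → Set P} {p : P} (h : p ∈ IsFun R)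
    {x : X} {y y' : Y} (h1 : p ∈ meets (R x y)) (h2 : p ∈ meets (R x y')) : y = y' := by
  obtain ⟨r, _, hr⟩ := mem_fimp.1 (h.2 x y y') p le_rfl ⟨h1, h2⟩
  exact hr

theorem isFun_total {X Y : Type} {R : X → Y → Set P} {p : P} (h : p ∈ IsFun R)
    (x : X) : ∃ q ≤ p, ∃ y, q ∈ meets (R x y) := mem_fex.1 (h.1 x) p le_rfl

/-- `σ`-closed forcing notions preserve `ω₁`. -/
theorem omegaOne_of_sigmaClosed (hP : SigmaClosed P) (p : P) : p ∈ OmegaOnePreserved P := by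
  intro q _ hq
  obtain ⟨r, _, R, hR, hR'⟩ := mem_fex.1 hq q le_rfl
  obtain ⟨t, ht, h1⟩ := meet_countable hP (fun n => {t | ∃ a, t ∈ meets (R n a)})
    (fun n t ⟨a, ha⟩ t' ht' => ⟨a, down_meets _ _ ha _ ht'⟩) r (by
      intro n t ht
      obtain ⟨t', ht', a, ha⟩ := mem_fex.1 (hR.1 n) t ht
      exact ⟨t', ht', a, ha⟩)
  choose g hg using h1
  obtain ⟨b, hb⟩ := exists_bound g
  obtain ⟨t', ht', n, hn⟩ := mem_fex.1 (hR' b) t ht
  have h2 := hR.2 n (g n) b
  obtain ⟨t'', _, h3⟩ := mem_fimp.1 h2 t' (ht'.trans ht) ⟨down_meets _ _ (hg n) _ ht', hn⟩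
  exact (hb n).ne h3

end

/-! ### The conditions -/

/-- The conditions: countable partial functions from `Λ × ω₁` to the power set of `ℕ`, given by
their graphs. -/
structure Cond (Λ : Type) where
  g : Set (Λ × Om × Set ℕ)
  ctb : g.Countable
  fn : ∀ i c x x', (i, c, x) ∈ g → (i, c, x') ∈ g → x = x'

variable {Λ : Type}

instance : Preorder (Cond Λ) where
  le q p := p.g ⊆ q.g
  le_refl _ := subset_rfl
  le_trans _ _ _ h h' := Set.Subset.trans h' h

theorem cond_ext {p q : Cond Λ} (h : p.g = q.g) : p = q := by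
  cases p
  cases q
  simp only at h
  subst h
  rfl

theorem cond_le {p q : Cond Λ} : q ≤ p ↔ p.g ⊆ q.g := Iff.rfl

instance : Nonempty (Cond Λ) := ⟨⟨∅, countable_empty, fun _ _ _ _ h => absurd h (notMem_empty _)⟩⟩

/-- `p` inside `X` and `q` outside `X` -/
def glue (X : Set Λ) (p q : Cond Λ) : Cond Λ where
  g := {t | t ∈ p.g ∧ t.1 ∈ X} ∪ {t | t ∈ q.g ∧ t.1 ∉ X}
  ctb := (p.ctb.mono fun _ h => h.1).union (q.ctb.mono fun _ h => h.1)
  fn := by
    rintro i c x x' (h | h) (h' | h')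
    · exact p.fn i c x x' h.1 h'.1
    · exact absurd h.2 h'.2
    · exact absurd h'.2 h.2
    · exact q.fn i c x x' h.1 h'.1

/-- the restriction of `p` to `X` -/
def restr (X : Set Λ) (p : Cond Λ) : Cond Λ where
  g := {t | t ∈ p.g ∧ t.1 ∈ X}
  ctb := p.ctb.mono fun _ h => h.1
  fn := fun i c x x' h h' => p.fn i c x x' h.1 h'.1

/-- the support of `p` is contained in `X` -/
def On (X : Set Λ) (p : Cond Λ) : Prop := ∀ t ∈ p.g, t.1 ∈ X

theorem le_restr (X : Set Λ) (p : Cond Λ) : p ≤ restr X p := fun _ h => h.1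

theorem restr_mono (X : Set Λ) {p q : Cond Λ} (h : q ≤ p) : restr X q ≤ restr X p :=
  fun _ ht => ⟨h ht.1, ht.2⟩

theorem glue_le {X : Set Λ} {p q : Cond Λ} (h : p ≤ restr X q) : glue X p q ≤ q := by
  intro t ht
  by_cases hX : t.1 ∈ X
  · exact Or.inl ⟨h ⟨ht, hX⟩, hX⟩
  · exact Or.inr ⟨ht, hX⟩

theorem glue_le_restr (X : Set Λ) (p q : Cond Λ) : glue X p q ≤ restr X p :=
  fun _ ht => Or.inl ht

theorem glue_mono {X : Set Λ} {p p' q q' : Cond Λ} (h : p' ≤ p) (h' : q' ≤ q) :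
    glue X p' q' ≤ glue X p q := by
  rintro t (ht | ht)
  · exact Or.inl ⟨h ht.1, ht.2⟩
  · exact Or.inr ⟨h' ht.1, ht.2⟩

theorem restr_glue (X : Set Λ) (p q : Cond Λ) : restr X p ≤ restr X (glue X p q) := by
  rintro t ⟨ht | ht, hX⟩
  · exact ht
  · exact absurd hX ht.2

theorem le_of_on {X : Set Λ} {p : Cond Λ} (h : On X p) : restr X p ≤ p := fun t ht => ⟨ht, h t ht⟩

theorem sigmaClosed_cond : SigmaClosed (Cond Λ) := by
  intro s hs
  have hmono : ∀ m n, m ≤ n → (s m).g ⊆ (s n).g := by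
    intro m n h
    induction h with
    | refl => exact subset_rfl
    | step h ih => exact ih.trans (hs _)
  refine ⟨⟨⋃ n, (s n).g, countable_iUnion fun n => (s n).ctb, ?_⟩,
    fun n => cond_le.2 (subset_iUnion (fun n => (s n).g) n)⟩
  intro i c x x' h h'
  obtain ⟨m, hm⟩ := mem_iUnion.1 h
  obtain ⟨n, hn⟩ := mem_iUnion.1 h'
  exact (s (max m n)).fn i c x x' (hmono _ _ (le_max_left _ _) hm) (hmono _ _ (le_max_right _ _) hn)

/-! ### Supported sentences -/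

/-- `φ` is supported by `X` -/
def Supp (X : Set Λ) (φ : Set (Cond Λ)) : Prop := ∀ p, p ∈ φ → restr X p ∈ φ

theorem supp_fnot {X : Set Λ} {φ : Set (Cond Λ)} (hd : Down φ) (h : Supp X φ) :
    Supp X (fnot φ) := by
  intro p hp q hq hqφ
  exact hp (glue X q p) (glue_le hq) (hd _ (h _ hqφ) _ (glue_le_restr X q p))

theorem supp_fand {X : Set Λ} {φ ψ : Set (Cond Λ)} (h : Supp X φ) (h' : Supp X ψ) :
    Supp X (fand φ ψ) := fun p hp => ⟨h p hp.1, h' p hp.2⟩

theorem supp_fall {X : Set Λ} {ι : Sort*} {φ : ι → Set (Cond Λ)} (h : ∀ i, Supp X (φ i)) :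
    Supp X (fall φ) := fun p hp i => h i p (hp i)

theorem supp_fimp {X : Set Λ} {φ ψ : Set (Cond Λ)} (hd : Down φ) (hd' : Down ψ) (h : Supp X φ)
    (h' : Supp X ψ) : Supp X (fimp φ ψ) :=
  supp_fnot (down_fand hd (down_fnot _)) (supp_fand h (supp_fnot hd' h'))

theorem supp_fiff {X : Set Λ} {φ ψ : Set (Cond Λ)} (hd : Down φ) (hd' : Down ψ) (h : Supp X φ)
    (h' : Supp X ψ) : Supp X (fiff φ ψ) :=
  supp_fand (supp_fimp hd hd' h h') (supp_fimp hd' hd h' h)

theorem supp_fground {X : Set Λ} (h : Prop) : Supp X (fground h) := fun _ hp => hp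

/-- a supported sentence forced by `glue X p q` is forced by `p` -/
theorem of_glue {X : Set Λ} {φ : Set (Cond Λ)} (hd : Down φ) (h : Supp X φ) {p q : Cond Λ}
    (hp : glue X p q ∈ φ) : p ∈ φ :=
  hd _ (h _ hp) _ ((le_restr X p).trans (restr_glue X p q))

/-- a criterion for supports -/
theorem supp_of_closed {X : Set Λ} {φ : Set (Cond Λ)} (hd : Down φ) (hr : Reg φ)
    (hcl : ∀ r, On X r → (∃ q ≤ r, q ∈ fnot φ) → ∃ q ≤ r, q ∈ fnot φ ∧ On X q) : Supp X φ := by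
  intro p hp
  apply hr
  intro q hq
  by_contra hcon
  push Not at hcon
  have h1 : q ∈ fnot φ := fun r hr h => hcon r hr h
  obtain ⟨q', hq', h2, hon⟩ := hcl (restr X p) (fun t ht => ht.2) ⟨q, hq, h1⟩
  exact h2 (glue X q' p) ((glue_le_restr X q' p).trans (le_of_on hon)) (hd _ hp _ (glue_le hq'))

end Pool.Agent.H728.CS
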