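import Mathlib
import Pool.Agent.H728.CS.Cond

/-!
# Small supports
-/

set_option autoImplicit false

namespace Pool.Agent.H728.CS

open Cardinal Set
open Pool.Agent.Helper292.ForceCH hiding Cond

/-- closing off under continuum many operations of countable arity -/
theorem exists_closed {Λ K : Type} (hK : #K ≤ 𝔠) (op : K → (ℕ → Λ) → Λ) (X₀ : Set Λ)
    (hX₀ : #X₀ ≤ 𝔠) :
    ∃ X : Set Λ, X₀ ⊆ X ∧ #X ≤ 𝔠 ∧ ∀ k f, (∀ n, f n ∈ X) → op k f ∈ X := by
  classical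
  let β : X₀ ⊕ K → Type := Sum.elim (fun _ => PEmpty) (fun _ => ℕ)
  let fγ : (Σ a : X₀ ⊕ K, β a → Λ) → Λ := fun s => match s with
    | ⟨Sum.inl x, _⟩ => x.1
    | ⟨Sum.inr k, f⟩ => op k f
  let ev : WType β → Λ := WType.elim Λ fγ
  refine ⟨range ev, fun x hx => ⟨WType.mk (Sum.inl ⟨x, hx⟩) (fun e => PEmpty.elim e), rfl⟩, ?_, ?_⟩
  · refine mk_range_le.trans (WType.cardinalMk_le_of_le ?_)
    have h1 : ∀ a : X₀ ⊕ K, 𝔠 ^ #(β a) ≤ 𝔠 := by
      rintro (x | k)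
      · show 𝔠 ^ #PEmpty ≤ 𝔠
        rw [mk_pempty, power_zero]
        exact (one_lt_aleph0.le).trans aleph0_le_continuum
      · show 𝔠 ^ #ℕ ≤ 𝔠
        rw [mk_nat, continuum_power_aleph0]
    refine (sum_le_sum _ (fun _ => 𝔠) h1).trans ?_
    rw [sum_const', mk_sum, lift_id, lift_id]
    calc (#X₀ + #K) * 𝔠 ≤ (𝔠 + 𝔠) * 𝔠 := mul_le_mul' (add_le_add hX₀ hK) le_rfl
      _ = 𝔠 := by
        rw [add_eq_self aleph0_le_continuum, mul_eq_self aleph0_le_continuum]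
  · intro k f hf
    choose w hw using hf
    refine ⟨WType.mk (Sum.inr k) w, ?_⟩
    show op k (fun n => ev (w n)) = op k f
    congr 1
    funext n
    exact hw n

variable {Λ : Type}

/-- an enumeration of the support -/
theorem exists_en [Nonempty Λ] (p : Cond Λ) : ∃ f : ℕ → Λ, ∀ t ∈ p.g, ∃ n, f n = t.1 := by
  rcases p.g.eq_empty_or_nonempty with h | h
  · exact ⟨fun _ => Classical.arbitrary Λ, fun t ht => by rw [h] at ht; exact absurd ht (notMem_empty _)⟩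
  · obtain ⟨g, hg⟩ := p.ctb.exists_eq_range h
    refine ⟨fun n => (g n).1, fun t ht => ?_⟩
    rw [hg] at ht
    obtain ⟨n, rfl⟩ := ht
    exact ⟨n, rfl⟩

/-- There is a small set of indices which supports the given small family of sentences. -/
theorem exists_supp {I : Type} (hI : #I ≤ 𝔠) (φ : I → Set (Cond Λ)) (hd : ∀ i, Down (φ i))
    (hr : ∀ i, Reg (φ i)) (X₀ : Set Λ) (hX₀ : #X₀ ≤ 𝔠) (hne : X₀.Nonempty) :
    ∃ X : Set Λ, X₀ ⊆ X ∧ #X ≤ 𝔠 ∧ ∀ i, Supp X (φ i) := by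
  classical
  obtain ⟨x₀, hx₀⟩ := hne
  have : Nonempty Λ := ⟨x₀⟩
  choose en hen using fun p : Cond Λ => exists_en p
  -- witnesses
  let w : I → Cond Λ → Cond Λ := fun i r =>
    if h : ∃ q ≤ r, q ∈ fnot (φ i) then h.choose else r
  have hw : ∀ i r, (∃ q ≤ r, q ∈ fnot (φ i)) → w i r ≤ r ∧ w i r ∈ fnot (φ i) := by
    intro i r h
    have h1 : w i r = h.choose := dif_pos h
    rw [h1]
    exact h.choose_spec
  -- decoding
  let dec : (ℕ → Om) → (ℕ → Set ℕ) → Set ℕ → (ℕ → Λ) → Cond Λ := fun c x S f =>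
    if h : ∃ r : Cond Λ, r.g = (fun n => (f n, c n, x n)) '' S then h.choose else Classical.arbitrary _
  have hdec : ∀ c x S f (r : Cond Λ), r.g = (fun n => (f n, c n, x n)) '' S → dec c x S f = r := by
    intro c x S f r h
    have hex : ∃ r : Cond Λ, r.g = (fun n => (f n, c n, x n)) '' S := ⟨r, h⟩
    have h1 : dec c x S f = hex.choose := dif_pos hex
    rw [h1]
    exact cond_ext (hex.choose_spec.trans h.symm)
  let K : Type := I × (ℕ → Om) × (ℕ → Set ℕ) × Set ℕ × ℕ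
  have hK : #K ≤ 𝔠 := by
    have hc : (ℵ₀ : Cardinal.{0}) ≤ 𝔠 := aleph0_le_continuum
    have h1 : #(ℕ → Om) ≤ 𝔠 := by
      rw [mk_arrow, lift_id, lift_id, mk_toType, card_ord, mk_nat]
      calc ℵ₁ ^ ℵ₀ ≤ 𝔠 ^ ℵ₀ := power_le_power_right aleph_one_le_continuum
        _ = 𝔠 := continuum_power_aleph0
    have h2 : #(Set ℕ) ≤ 𝔠 := by rw [mk_set, mk_nat, two_power_aleph0]
    have h3 : #(ℕ → Set ℕ) ≤ 𝔠 := by
      rw [mk_arrow, lift_id, lift_id, mk_nat]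
      calc #(Set ℕ) ^ ℵ₀ ≤ 𝔠 ^ ℵ₀ := power_le_power_right h2
        _ = 𝔠 := continuum_power_aleph0
    have h4 : #ℕ ≤ 𝔠 := by rw [mk_nat]; exact hc
    have hmul : ∀ a b : Cardinal.{0}, a ≤ 𝔠 → b ≤ 𝔠 → a * b ≤ 𝔠 := fun a b ha hb =>
      (mul_le_mul' ha hb).trans (mul_eq_self hc).le
    simp only [K, mk_prod, lift_id]
    exact hmul _ _ hI (hmul _ _ h1 (hmul _ _ h3 (hmul _ _ h2 h4)))
  obtain ⟨X, hX, hXc, hXop⟩ := exists_closed hK
    (fun k f => en (w k.1 (dec k.2.1 k.2.2.1 k.2.2.2.1 f)) k.2.2.2.2) X₀ hX₀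
  refine ⟨X, hX, hXc, fun i => supp_of_closed (hd i) (hr i) fun r hon hex => ?_⟩
  refine ⟨w i r, (hw i r hex).1, (hw i r hex).2, fun t ht => ?_⟩
  obtain ⟨n, hn⟩ := hen (w i r) t ht
  rw [← hn]
  -- encode `r`
  rcases r.g.eq_empty_or_nonempty with h | h
  · have h1 : dec (fun _ => Classical.arbitrary Om) (fun _ => ∅) ∅ (fun _ => x₀) = r :=
      hdec _ _ _ _ _ (by rw [h, image_empty])
    have h2 := hXop (i, fun _ => Classical.arbitrary Om, fun _ => ∅, ∅, n) (fun _ => x₀)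
      (fun _ => hX hx₀)
    simp only [h1] at h2
    exact h2
  · obtain ⟨g, hg⟩ := r.ctb.exists_eq_range h
    have h1 : dec (fun n => (g n).2.1) (fun n => (g n).2.2) Set.univ (fun n => (g n).1) = r :=
      hdec _ _ _ _ _ (by rw [hg, image_univ])
    have h2 := hXop (i, fun n => (g n).2.1, fun n => (g n).2.2, Set.univ, n) (fun n => (g n).1)
      (fun n => hon _ (by rw [hg]; exact mem_range_self n))
    simp only [h1] at h2
    exact h2

end Pool.Agent.H728.CS
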