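import Mathlib
import Pool.Agent.H728.CS.Supp

/-!
# The scheme principle holds after adding many subsets of `ω₁` with countable conditions
-/

set_option autoImplicit false

namespace Pool.Agent.H728.CS

open Cardinal Set
open Pool.Agent.Helper292.ForceCH hiding Cond gen

variable {Λ : Type}

/-- the generic subset of `ω₁` with index `i` -/
def gen (i : Λ) (c : Om) : Set (Cond Λ) := {p | ∃ x, (i, c, x) ∈ p.g ∧ 0 ∈ x}

/-- add one value to a condition -/
def add (p : Cond Λ) (i : Λ) (c : Om) (x : Set ℕ) (h : ∀ z, (i, c, z) ∉ p.g) : Cond Λ where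
  g := insert (i, c, x) p.g
  ctb := p.ctb.insert _
  fn := by
    rintro j d y y' (h1 | h1) (h2 | h2)
    · rw [Prod.mk.injEq, Prod.mk.injEq] at h1 h2
      rw [h1.2.2, h2.2.2]
    · rw [Prod.mk.injEq, Prod.mk.injEq] at h1
      rw [h1.1, h1.2.1] at h2
      exact absurd h2 (h _)
    · rw [Prod.mk.injEq, Prod.mk.injEq] at h2
      rw [h2.1, h2.2.1] at h1
      exact absurd h1 (h _)
    · exact p.fn j d y y' h1 h2

theorem add_le (p : Cond Λ) (i : Λ) (c : Om) (x : Set ℕ) (h : ∀ z, (i, c, z) ∉ p.g) :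
    add p i c x h ≤ p := fun _ ht => Or.inr ht

theorem mem_add (p : Cond Λ) (i : Λ) (c : Om) (x : Set ℕ) (h : ∀ z, (i, c, z) ∉ p.g) :
    (i, c, x) ∈ (add p i c x h).g := Or.inl rfl

/-- some value is not decided -/
theorem exists_free (p : Cond Λ) (i : Λ) : ∃ b : Om, ∀ c, b < c → ∀ z, (i, c, z) ∉ p.g := by
  obtain ⟨b, hb⟩ := bound_of_countable (p.ctb.image fun t => t.2.1)
  exact ⟨b, fun c hc z hz => lt_asymm hc (hb c ⟨_, hz, rfl⟩)⟩

theorem down_gen (i : Λ) (c : Om) : Down (gen i c) :=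
  fun _ ⟨x, hx, h0⟩ _ hq => ⟨x, hq hx, h0⟩

theorem meets_gen {i : Λ} {c : Om} {p : Cond Λ} : p ∈ meets (gen i c) ↔ p ∈ gen i c := by
  refine ⟨fun h => ?_, fun h => meets_of_mem (down_gen i c) h⟩
  by_cases hex : ∃ z, (i, c, z) ∈ p.g
  · obtain ⟨z, hz⟩ := hex
    obtain ⟨r, hr, x, hx, h0⟩ := (mem_meets_down (down_gen i c)).1 h p le_rfl
    have := r.fn i c x z hx (hr hz)
    exact ⟨z, hz, this ▸ h0⟩
  · push Not at hex
    obtain ⟨r, hr, x, hx, h0⟩ := (mem_meets_down (down_gen i c)).1 h (add p i c ∅ hex)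
      (add_le p i c ∅ hex)
    have := r.fn i c x ∅ hx (hr (mem_add p i c ∅ hex))
    rw [this] at h0
    exact absurd h0 (notMem_empty 0)

theorem supp_gen {i : Λ} {c : Om} {X : Set Λ} (hi : i ∈ X) : Supp X (meets (gen i c)) := by
  intro p hp
  rw [meets_gen] at hp ⊢
  obtain ⟨x, hx, h0⟩ := hp
  exact ⟨x, ⟨hx, hi⟩, h0⟩

/-! ### The continuum hypothesis -/

theorem chHolds [Nonempty Λ] (p : Cond Λ) : p ∈ CHHolds (Cond Λ) := by
  obtain ⟨i⟩ := ‹Nonempty Λ›
  refine mem_fex.2 fun q _ => ⟨q, le_rfl,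
    fun a n => {p | ∃ x, (i, a, x) ∈ p.g ∧ n ∈ x}, fun x => mem_fex.2 fun r _ => ?_⟩
  have hdn : ∀ (a : Om) (n : ℕ), Down {p : Cond Λ | ∃ x, (i, a, x) ∈ p.g ∧ n ∈ x} :=
    fun a n _ ⟨x, hx, h0⟩ _ hq => ⟨x, hq hx, h0⟩
  obtain ⟨t, ht, h1⟩ := decide_countable sigmaClosed_cond (fun n : ℕ => meets (x n))
    (fun _ => down_meets _) r
  obtain ⟨b, hb⟩ := exists_free t i
  obtain ⟨c, hc⟩ := exists_gt b
  let X : Set ℕ := {n | t ∈ meets (x n)}
  refine ⟨add t i c X (hb c hc), (add_le _ _ _ _ _).trans ht, c, fun n => ?_⟩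
  refine mem_fiff_meets.2 fun u hu => ?_
  have hut : u ≤ t := hu.trans (add_le _ _ _ _ _)
  have hmem : (i, c, X) ∈ u.g := hu (mem_add t i c X (hb c hc))
  constructor
  · intro h
    refine meets_of_mem (hdn c n) ⟨X, hmem, ?_⟩
    rcases h1 n with h2 | h2
    · exact h2
    · exact absurd h (h2 u hut)
  · intro h
    obtain ⟨v, hv, y, hy, hny⟩ := (mem_meets_down (hdn c n)).1 h u le_rfl
    have : y = X := v.fn i c y X hy (hv hmem)
    rw [this] at hny
    exact down_meets _ _ hny _ hut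

/-! ### The scheme -/

/-- `(gen i, h)` and the row `a` agree below `δ` -/
def Tr (i : Λ) (h : Om → Set (Cond Λ)) (E F : Om → Om → Set (Cond Λ)) (a δ : Om) :
    Set (Cond Λ) :=
  fall fun c : Om => fall fun _ : c < δ =>
    fand (fiff (meets (gen i c)) (meets (E a c))) (fiff (meets (h c)) (meets (F a c)))

theorem down_Tr (i : Λ) (h : Om → Set (Cond Λ)) (E F : Om → Om → Set (Cond Λ)) (a δ : Om) :
    Down (Tr i h E F a δ) :=
  down_fall fun _ => down_fall fun _ => down_fand (down_fiff _ _) (down_fiff _ _)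

theorem supp_Tr {i : Λ} {h : Om → Set (Cond Λ)} {E F : Om → Om → Set (Cond Λ)} {X : Set Λ}
    (hi : i ∈ X) (hh : ∀ c, Supp X (meets (h c))) (hE : ∀ a c, Supp X (meets (E a c)))
    (hF : ∀ a c, Supp X (meets (F a c))) (a δ : Om) : Supp X (Tr i h E F a δ) :=
  supp_fall fun _ => supp_fall fun _ => supp_fand
    (supp_fiff (down_meets _) (down_meets _) (supp_gen hi) (hE _ _))
    (supp_fiff (down_meets _) (down_meets _) (hh _) (hF _ _))

/-- the elements of the scheme: a condition with support in `X`, below `p`, and two countable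
ordinals, the length and the number of the row -/
def QQ (X : Set Λ) (p : Cond Λ) : Type :=
  {x : Cond Λ × Om × Om // On X x.1 ∧ x.1 ≤ p}

/-- the name for the order of the scheme -/
def LE (X₀ : Set Λ) {X : Set Λ} {p : Cond Λ} (i : Λ) (h : Om → Set (Cond Λ))
    (E F : Om → Om → Set (Cond Λ)) (x y : QQ X p) : Set (Cond Λ) :=
  {u | (x.1.1 ≤ y.1.1 ∧ y.1.2.1 ≤ x.1.2.1) ∧ glue X₀ u x.1.1 ∈ Tr i h E F x.1.2.2 x.1.2.1 ∧
    glue X₀ u y.1.1 ∈ Tr i h E F y.1.2.2 y.1.2.1}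

theorem down_LE (X₀ : Set Λ) {X : Set Λ} {p : Cond Λ} (i : Λ) (h : Om → Set (Cond Λ))
    (E F : Om → Om → Set (Cond Λ)) (x y : QQ X p) : Down (LE X₀ i h E F x y) :=
  fun _ hu _ hv => ⟨hu.1, down_Tr _ _ _ _ _ _ _ hu.2.1 _ (glue_mono hv le_rfl),
    down_Tr _ _ _ _ _ _ _ hu.2.2 _ (glue_mono hv le_rfl)⟩

end Pool.Agent.H728.CS
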