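import Mathlib
import Pool.Agent.H728.CS.Force

/-!
# The scheme principle holds after adding many subsets of `ω₁` with countable conditions
-/

set_option autoImplicit false

namespace Pool.Agent.H728.CS

open Cardinal Set
open Pool.Agent.Helper292.ForceCH hiding Cond gen

variable {Λ : Type}

section
variable {X₀ X : Set Λ} {p : Cond Λ} {i : Λ} {h : Om → Set (Cond Λ)}
  {E F : Om → Om → Set (Cond Λ)}

theorem le_refl_left {x y : QQ X p} {u : Cond Λ} (hu : u ∈ LE X₀ i h E F x y) :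
    u ∈ LE X₀ i h E F x x := ⟨⟨le_rfl, le_rfl⟩, hu.2.1, hu.2.1⟩

theorem le_refl_right {x y : QQ X p} {u : Cond Λ} (hu : u ∈ LE X₀ i h E F x y) :
    u ∈ LE X₀ i h E F y y := ⟨⟨le_rfl, le_rfl⟩, hu.2.2, hu.2.2⟩

theorem le_tr {x y z : QQ X p} {u : Cond Λ} (hu : u ∈ LE X₀ i h E F x y)
    (hv : u ∈ LE X₀ i h E F y z) : u ∈ LE X₀ i h E F x z :=
  ⟨⟨hu.1.1.trans hv.1.1, hv.1.2.trans hu.1.2⟩, hu.2.1, hv.2.2⟩

theorem meets_mono {M N : Set (Cond Λ)} (hM : Down M) (hN : Down N)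
    (hMN : ∀ u, u ∈ M → u ∈ N) {u : Cond Λ} (hu : u ∈ meets M) : u ∈ meets N :=
  (mem_meets_down hN).2 fun q hq =>
    ((mem_meets_down hM).1 hu q hq).imp fun _ hr => ⟨hr.1, hMN _ hr.2⟩

/-- agreement of `E` rows, and of `F` rows -/
theorem rows_agree (hE : ∀ a c, Supp X₀ (meets (E a c))) (hF : ∀ a c, Supp X₀ (meets (F a c)))
    {x y : QQ X p} {u : Cond Λ} (hu : u ∈ LE X₀ i h E F x y) {c : Om} (hc : c < y.1.2.1) :
    u ∈ fiff (meets (E x.1.2.2 c)) (meets (E y.1.2.2 c)) ∧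
    u ∈ fiff (meets (F x.1.2.2 c)) (meets (F y.1.2.2 c)) := by
  have h1 := hu.2.1 c (hc.trans_le hu.1.2)
  have h2 := down_Tr _ _ _ _ _ _ _ hu.2.2 (glue X₀ u x.1.1) (glue_mono le_rfl hu.1.1) c hc
  constructor
  · refine of_glue (X := X₀) (down_fiff _ _) (supp_fiff (down_meets _) (down_meets _) (hE _ _) (hE _ _))
      (q := x.1.1) ?_
    refine mem_fiff_meets.2 fun q hq => ?_
    exact (mem_fiff_meets.1 h1.1 q hq).symm.trans (mem_fiff_meets.1 h2.1 q hq)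
  · refine of_glue (X := X₀) (down_fiff _ _) (supp_fiff (down_meets _) (down_meets _) (hF _ _) (hF _ _))
      (q := x.1.1) ?_
    refine mem_fiff_meets.2 fun q hq => ?_
    exact (mem_fiff_meets.1 h1.2 q hq).symm.trans (mem_fiff_meets.1 h2.2 q hq)

end

section
variable {X₀ X₁ : Set Λ} {i : Λ} {h : Om → Set (Cond Λ)} {E F : Om → Om → Set (Cond Λ)}
  {p : Cond Λ}

/-- the splitting property -/
theorem split (h01 : X₀ ⊆ X₁) (hi0 : i ∉ X₀) (hi1 : i ∈ X₁)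
    (hE : ∀ a c, Supp X₀ (meets (E a c))) (hF : ∀ a c, Supp X₀ (meets (F a c)))
    (hh : ∀ c, Supp X₁ (meets (h c))) (hp : On X₁ p)
    (hθ : ∀ b, p ∈ fex fun a : Om => Tr i h E F a b)
    (s : ℕ → QQ (X₁ \ X₀) (restr (X₁ \ X₀) p)) (u : Cond Λ) (hu : u ≤ p)
    (hs : ∀ n, u ∈ LE X₀ i h E F (s (n + 1)) (s n)) (c : Om)
    (hc : ∀ n z, (i, c, z) ∉ (s n).1.1.g) (b : Om) (e : Bool) :
    ∃ r ≤ u, ∃ x : QQ (X₁ \ X₀) (restr (X₁ \ X₀) p), (∀ n, r ∈ LE X₀ i h E F x (s n)) ∧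
      b ≤ x.1.2.1 ∧ c < x.1.2.1 ∧
      r ∈ fiff (meets (E x.1.2.2 c)) (fground (e = true)) := by
  classical
  -- the union of the conditions
  obtain ⟨qω, hqω, hqω'⟩ : ∃ q : Cond Λ, (∀ n, q ≤ (s n).1.1) ∧ q.g = ⋃ n, (s n).1.1.g := by
    have hmono : ∀ m n, m ≤ n → (s m).1.1.g ⊆ (s n).1.1.g := by
      intro m n h
      induction h with
      | refl => exact subset_rfl
      | step h ih => exact ih.trans (hs _).1.1
    refine ⟨⟨⋃ n, (s n).1.1.g, countable_iUnion fun n => (s n).1.1.ctb, ?_⟩,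
      fun n => cond_le.2 (subset_iUnion (fun n => (s n).1.1.g) n), rfl⟩
    intro i c x x' h h'
    obtain ⟨m, hm⟩ := mem_iUnion.1 h
    obtain ⟨n, hn⟩ := mem_iUnion.1 h'
    exact (s (max m n)).1.1.fn i c x x' (hmono _ _ (le_max_left _ _) hm)
      (hmono _ _ (le_max_right _ _) hn)
  have hfree : ∀ z, (i, c, z) ∉ qω.g := by
    intro z hz
    rw [hqω', mem_iUnion] at hz
    obtain ⟨n, hn⟩ := hz
    exact hc n z hn
  let val : Set ℕ := if e = true then {0} else ∅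
  have hval : 0 ∈ val ↔ e = true := by
    by_cases he : e = true
    · simp [val, he]
    · simp [val, he]
  let q' := add qω i c val hfree
  have hq'on : On (X₁ \ X₀) q' := by
    rintro t (ht | ht)
    · rw [ht]; exact ⟨hi1, hi0⟩
    · rw [hqω', mem_iUnion] at ht
      obtain ⟨n, hn⟩ := ht
      exact (s n).2.1 t hn
  have hq's : ∀ n, q' ≤ (s n).1.1 := fun n => (add_le _ _ _ _ _).trans (hqω n)
  have hq'p : q' ≤ restr (X₁ \ X₀) p := (hq's 0).trans (s 0).2.2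
  let t₀ := glue X₀ u q'
  have ht₀ : t₀ ≤ p := by
    intro t ht
    by_cases hX : t.1 ∈ X₀
    · exact Or.inl ⟨hu ht, hX⟩
    · exact Or.inr ⟨hq'p ⟨ht, hp t ht, hX⟩, hX⟩
  -- the new length
  obtain ⟨δ, hδ⟩ : ∃ δ : Om, b ≤ δ ∧ c < δ ∧ ∀ n, (s n).1.2.1 ≤ δ := by
    obtain ⟨δ, hδ⟩ := exists_bound (fun n => max (max b c) (s n).1.2.1)
    refine ⟨δ, ?_, ?_, fun n => (le_max_right _ _).trans (hδ n).le⟩
    · exact ((le_max_left _ _).trans (le_max_left _ _)).trans (hδ 0).le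
    · exact ((le_max_right _ _).trans (le_max_left _ _)).trans_lt (hδ 0)
  obtain ⟨t₁, ht₁, a, ha⟩ := mem_fex.1 (hθ δ) t₀ ht₀
  have ha' : restr X₁ t₁ ∈ Tr i h E F a δ :=
    supp_Tr hi1 hh (fun a c q hq => ?_) (fun a c q hq => ?_) a δ t₁ ha
  · have hx1 : On (X₁ \ X₀) (restr (X₁ \ X₀) t₁) := fun t ht => ht.2
    have hx2 : restr (X₁ \ X₀) t₁ ≤ restr (X₁ \ X₀) p := restr_mono _ (ht₁.trans ht₀)
    let x : QQ (X₁ \ X₀) (restr (X₁ \ X₀) p) := ⟨(restr (X₁ \ X₀) t₁, δ, a), hx1, hx2⟩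
    let r := glue X₀ t₁ u
    have hru : r ≤ u := glue_le (ht₁.trans (glue_le_restr _ _ _))
    have hgl : glue X₀ r x.1.1 ≤ restr X₁ t₁ := by
      intro t ht
      by_cases hX : t.1 ∈ X₀
      · exact Or.inl ⟨Or.inl ⟨ht.1, hX⟩, hX⟩
      · exact Or.inr ⟨⟨ht.1, ht.2, hX⟩, hX⟩
    have hok : glue X₀ r x.1.1 ∈ Tr i h E F a δ := down_Tr _ _ _ _ _ _ _ ha' _ hgl
    have hxq' : x.1.1 ≤ q' := by
      intro t ht
      exact ⟨ht₁ (Or.inr ⟨ht, (hq'on t ht).2⟩), hq'on t ht⟩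
    refine ⟨r, hru, x, fun n => ⟨⟨hxq'.trans (hq's n), hδ.2.2 n⟩, hok, ?_⟩, hδ.1, hδ.2.1, ?_⟩
    · exact down_Tr _ _ _ _ _ _ _ (hs n).2.2 _ (glue_mono hru le_rfl)
    · refine of_glue (X := X₀) (down_fiff _ _)
        (supp_fiff (down_meets _) (down_fground _) (hE _ _) (supp_fground _)) (q := x.1.1) ?_
      refine mem_fiff_ground.2 fun v hv => ?_
      rw [← mem_fiff_meets.1 (hok c hδ.2.1).1 v hv, meets_gen, ← hval]
      have hmem : (i, c, val) ∈ v.g := by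
        refine hv (Or.inr ⟨hxq' (mem_add _ _ _ _ _), hi0⟩)
      constructor
      · rintro ⟨y, hy, h0⟩
        rwa [v.fn i c y val hy hmem] at h0
      · exact fun h0 => ⟨val, hmem, h0⟩
  · have h1 := hE a c q hq
    exact down_meets _ _ h1 _ (fun t ht => ⟨ht.1, h01 ht.2⟩)
  · have h1 := hF a c q hq
    exact down_meets _ _ h1 _ (fun t ht => ⟨ht.1, h01 ht.2⟩)

end

end Pool.Agent.H728.CS
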