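import Mathlib
import Pool.Agent.H728.CS.Force2

/-!
# The scheme principle holds after adding many subsets of `ω₁` with countable conditions
-/

set_option autoImplicit false

namespace Pool.Agent.H728.CS

open Cardinal Set
open Pool.Agent.Helper292.ForceCH hiding Cond gen

variable {Λ : Type}

theorem exists_least : ∃ b : Om, ∀ c : Om, ¬ c < b := by
  obtain ⟨b, -, hb⟩ := WellFounded.has_min (wellFounded_lt (α := Om)) Set.univ
    ⟨Classical.arbitrary Om, mem_univ _⟩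
  exact ⟨b, fun c => hb c (mem_univ c)⟩

section
variable {X₀ X₁ : Set Λ} {i : Λ} {h : Om → Set (Cond Λ)} {E F : Om → Om → Set (Cond Λ)}
  {p : Cond Λ}

theorem schemeN_mem (h01 : X₀ ⊆ X₁) (hi0 : i ∉ X₀) (hi1 : i ∈ X₁)
    (hE : ∀ a c, Supp X₀ (meets (E a c))) (hF : ∀ a c, Supp X₀ (meets (F a c)))
    (hh : ∀ c, Supp X₁ (meets (h c))) (hp : On X₁ p)
    (hθ : ∀ b, p ∈ fex fun a : Om => Tr i h E F a b) :
    p ∈ SchemeN (Cond Λ) E F := by
  classical
  refine mem_fex.2 fun q hq => ⟨q, le_rfl, QQ (X₁ \ X₀) (restr (X₁ \ X₀) p), ?_⟩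
  refine mem_fex.2 fun q hq' => ⟨q, le_rfl, LE X₀ i h E F, ?_⟩
  replace hq := hq'.trans hq; clear hq'
  refine mem_fex.2 fun q hq' => ⟨q, le_rfl, fun x c => {_u | c < x.1.2.1}, ?_⟩
  replace hq := hq'.trans hq; clear hq'
  refine mem_fex.2 fun q hq' => ⟨q, le_rfl, fun x c => {_u | ∀ z, (i, c, z) ∉ x.1.1.g}, ?_⟩
  replace hq := hq'.trans hq; clear hq'
  refine mem_fex.2 fun q hq' => ⟨q, le_rfl, fun x c => E x.1.2.2 c, ?_⟩
  replace hq := hq'.trans hq; clear hq'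
  refine mem_fex.2 fun q hq' => ⟨q, le_rfl, fun x c => F x.1.2.2 c, ?_⟩
  replace hq := hq'.trans hq; clear hq'
  have hdLE : ∀ x y : QQ (X₁ \ X₀) (restr (X₁ \ X₀) p), Down (LE X₀ i h E F x y) :=
    fun x y => down_LE X₀ i h E F x y
  refine ⟨?_, ?_, ?_, ?_, ?_, ?_, ?_⟩
  · -- there is an element
    obtain ⟨b, hb⟩ := exists_least
    refine mem_fex.2 fun u _ => ⟨u, le_rfl, ⟨(restr (X₁ \ X₀) p, b, b), fun t ht => ht.2, le_rfl⟩,
      meets_of_mem (hdLE _ _) ⟨⟨le_rfl, le_rfl⟩, ?_, ?_⟩⟩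
    · exact fun c hc => absurd hc (hb c)
    · exact fun c hc => absurd hc (hb c)
  · intro x y
    refine fimp_of fun u _ hu => ⟨?_, ?_⟩
    · exact meets_mono (hdLE _ _) (hdLE _ _) (fun _ => le_refl_left) hu
    · exact meets_mono (hdLE _ _) (hdLE _ _) (fun _ => le_refl_right) hu
  · intro x y z
    refine fimp_of fun u _ hu => fimp_of fun v hv hv' => ?_
    refine (mem_meets_down (hdLE _ _)).2 fun w hw => ?_
    obtain ⟨w1, hw1, h1⟩ := (mem_meets_down (hdLE _ _)).1 hu w (hw.trans hv)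
    obtain ⟨w2, hw2, h2⟩ := (mem_meets_down (hdLE _ _)).1 hv' w1 (hw1.trans hw)
    exact ⟨w2, hw2.trans hw1, le_tr (hdLE _ _ _ h1 _ hw2) h2⟩
  · intro x y c
    refine fimp_of fun u _ hu => fimp_of fun v hv hv' => ?_
    have hc : c < y.1.2.1 := meets_ground.1 hv'
    have hu' := down_meets _ _ hu _ hv
    obtain ⟨w, hw, hw'⟩ := (mem_meets_down (hdLE _ _)).1 hu' v le_rfl
    refine ⟨meets_ground.2 (hc.trans_le hw'.1.2), ?_, ?_⟩
    · refine reg_fiff (down_meets _) (down_meets _) v fun v' hv' => ?_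
      obtain ⟨r, hr, hr'⟩ := (mem_meets_down (hdLE _ _)).1 hu' v' hv'
      exact ⟨r, hr, (rows_agree hE hF hr' hc).1⟩
    · refine reg_fiff (down_meets _) (down_meets _) v fun v' hv' => ?_
      obtain ⟨r, hr, hr'⟩ := (mem_meets_down (hdLE _ _)).1 hu' v' hv'
      exact ⟨r, hr, (rows_agree hE hF hr' hc).2⟩
  · intro x
    refine fimp_of fun u _ _ => mem_fex.2 fun v _ => ⟨v, le_rfl, x.1.2.2, fun c => ?_⟩
    refine fimp_of fun w _ _ => ⟨?_, ?_⟩
    · exact mem_fiff_meets.2 fun _ _ => Iff.rfl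
    · exact mem_fiff_meets.2 fun _ _ => Iff.rfl
  · intro x
    obtain ⟨b, hb⟩ := exists_free x.1.1 i
    exact mem_fex.2 fun u _ => ⟨u, le_rfl, b, fun c hc => meets_ground.2 (hb c hc)⟩
  · intro s
    refine fimp_of fun u₁ hu₁ hfun => fimp_of fun u₂ hu₂ hdec => ?_
    intro c
    refine fimp_of fun u₃ hu₃ hfr => ?_
    intro b e
    replace hfun := down_IsFun s _ hfun _ (hu₃.trans hu₂)
    have hu : u₃ ≤ p := hu₃.trans (hu₂.trans (hu₁.trans hq))
    refine mem_fex.2 fun v hv => ?_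
    -- decide the sequence
    obtain ⟨v₁, hv₁, h1⟩ := meet_countable sigmaClosed_cond (fun n => {t | ∃ x, t ∈ meets (s n x)})
      (fun n t ⟨a, ha⟩ t' ht' => ⟨a, down_meets _ _ ha _ ht'⟩) v (by
        intro n t ht
        obtain ⟨t', ht', a, ha⟩ := isFun_total (down_IsFun s _ hfun _ (ht.trans hv)) n
        exact ⟨t', ht', a, ha⟩)
    choose s₀ hs₀ using h1
    have hdec' : ∀ n, v₁ ∈ meets (LE X₀ i h E F (s₀ (n + 1)) (s₀ n)) := by
      intro n
      exact (mem_fimp' (down_fand (down_meets _) (down_meets _)) (reg_meets _)).1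
        (hdec n (s₀ n) (s₀ (n + 1))) v₁ (hv₁.trans (hv.trans hu₃)) ⟨hs₀ n, hs₀ (n + 1)⟩
    obtain ⟨v₂, hv₂, h2⟩ := meet_countable sigmaClosed_cond
      (fun n => LE X₀ i h E F (s₀ (n + 1)) (s₀ n)) (fun n => hdLE _ _) v₁
      (fun n t ht => (mem_meets_down (hdLE _ _)).1 (hdec' n) t ht)
    have hfr' : ∀ n z, (i, c, z) ∉ (s₀ n).1.1.g := by
      intro n
      have h3 := (mem_fimp' (down_meets _) (reg_meets _)).1 (hfr n (s₀ n)) v₁ (hv₁.trans hv) (hs₀ n)
      exact meets_ground.1 h3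
    obtain ⟨r, hr, x, hx, hbx, hcx, hex⟩ := split h01 hi0 hi1 hE hF hh hp hθ s₀ v₂
      (hv₂.trans (hv₁.trans (hv.trans hu))) h2 c hfr' b e
    have hrv : r ≤ v := hr.trans (hv₂.trans hv₁)
    refine ⟨r, hrv, x, ?_, ?_, ?_, hex⟩
    · intro n y
      refine fimp_of fun w hw hwy => ?_
      have hy : s₀ n = y := isFun_unique (down_IsFun s _ hfun _ (hw.trans (hrv.trans hv)))
        (down_meets _ _ (hs₀ n) _ (hw.trans (hr.trans hv₂))) hwy
      rw [← hy]
      exact meets_of_mem (hdLE _ _) (hdLE _ _ _ (hx n) _ hw)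
    · intro a ha
      exact meets_ground.2 (ha.trans_le hbx)
    · exact meets_ground.2 hcx

end

/-- The scheme principle is forced. -/
theorem schemePrinciple_forced (hΛ : 𝔠 < #Λ) (p : Cond Λ) :
    p ∈ SchemePrincipleN (Cond Λ) := by
  classical
  intro E F
  refine mem_fimp.2 fun p₁ _ hp₁ => ?_
  have hc : (ℵ₀ : Cardinal.{0}) ≤ 𝔠 := aleph0_le_continuum
  have hOm : #(Om × Om) ≤ 𝔠 := by
    rw [mk_prod, lift_id, mk_toType, card_ord]
    rw [mul_eq_self (aleph0_le_aleph 1)]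
    exact aleph_one_le_continuum
  have hI : #((Om × Om) ⊕ (Om × Om)) ≤ 𝔠 := by
    rw [mk_sum]
    simp only [lift_id]
    exact (add_le_add hOm hOm).trans (add_eq_self hc).le
  have hne : Nonempty Λ := by
    rw [← mk_ne_zero_iff]
    exact (continuum_pos.trans hΛ).ne'
  obtain ⟨i₁⟩ := hne
  have hsmall : ∀ q : Cond Λ, #{j | ∃ t ∈ q.g, t.1 = j} ≤ 𝔠 := by
    intro q
    have h1 : {j | ∃ t ∈ q.g, t.1 = j}.Countable := q.ctb.image fun t => t.1
    exact (le_aleph0_iff_set_countable.2 h1).trans hc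
  -- the support of the rows
  obtain ⟨X₀, -, hX₀, hsup⟩ := exists_supp hI
    (fun k : (Om × Om) ⊕ (Om × Om) => Sum.elim (fun k => meets (E k.1 k.2))
      (fun k => meets (F k.1 k.2)) k)
    (fun k => by rcases k with k | k <;> exact down_meets _)
    (fun k => by rcases k with k | k <;> exact reg_meets _) ({i₁} : Set Λ)
    (by rw [mk_singleton]; exact one_lt_aleph0.le.trans hc) ⟨i₁, rfl⟩
  have hE : ∀ a c, Supp X₀ (meets (E a c)) := fun a c => hsup (Sum.inl (a, c))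
  have hF : ∀ a c, Supp X₀ (meets (F a c)) := fun a c => hsup (Sum.inr (a, c))
  -- a new index
  obtain ⟨i, hi⟩ : ∃ i, i ∉ X₀ := by
    by_contra hcon
    push Not at hcon
    have h1 : #Λ ≤ #X₀ := by
      rw [eq_univ_of_forall hcon, mk_univ]
    exact absurd (h1.trans hX₀) (not_le.2 hΛ)
  obtain ⟨p₂, hp₂, h, hh⟩ := mem_fex.1 (hp₁ (gen i)) p₁ le_rfl
  -- the large support
  obtain ⟨X₁, hX₁, -, hsup'⟩ := exists_supp (I := Om)
    (by rw [mk_toType, card_ord]; exact aleph_one_le_continuum)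
    (fun c => meets (h c)) (fun c => down_meets _) (fun c => reg_meets _)
    (X₀ ∪ {i} ∪ {j | ∃ t ∈ p₂.g, t.1 = j}) (by
      have h1 : #({i} : Set Λ) ≤ 𝔠 := by
        rw [mk_singleton]; exact one_lt_aleph0.le.trans hc
      refine (mk_union_le _ _).trans ?_
      refine (add_le_add ((mk_union_le _ _).trans (add_le_add hX₀ h1)) (hsmall p₂)).trans ?_
      rw [add_eq_self hc, add_eq_self hc])
    ⟨i, Or.inl (Or.inr rfl)⟩
  refine ⟨p₂, hp₂, schemeN_mem (X₀ := X₀) (X₁ := X₁) (i := i) (h := h)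
    (fun x hx => hX₁ (Or.inl (Or.inl hx))) hi (hX₁ (Or.inl (Or.inr rfl))) hE hF hsup'
    (fun t ht => hX₁ (Or.inr ⟨t, ht, rfl⟩)) (fun b => hh b)⟩

/-- Some notion of forcing forces that `ω₁` is preserved, the continuum hypothesis and the scheme
principle. -/
theorem exists_forcing : ∃ (P : Type) (_ : Preorder P), Nonempty P ∧ ∀ p : P,
    p ∈ OmegaOnePreserved P ∧ p ∈ CHHolds P ∧ p ∈ SchemePrincipleN P := by
  have hΛ : 𝔠 < #(Set (Set ℕ)) := by
    have h1 : #(Set ℕ) = 𝔠 := by rw [mk_set, mk_nat, two_power_aleph0]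
    rw [mk_set, h1]
    exact cantor 𝔠
  exact ⟨Cond (Set (Set ℕ)), inferInstance, inferInstance, fun p =>
    ⟨omegaOne_of_sigmaClosed sigmaClosed_cond p, chHolds p, schemePrinciple_forced hΛ p⟩⟩

end Pool.Agent.H728.CS
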