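import Mathlib
import Pool.Agent.H728.CS.Core
import Pool.Graph.R_seed8.Helper937.Dya3
import Pool.Graph.R_seed8.Helper332.SAD.SpaceDefs

/-!
# Continuous images of scattered compacta in the countable power of the line; rows
-/

set_option autoImplicit false

namespace Pool.Agent.H728.CS

open Cardinal Set Topology
open Pool.Agent.Helper292.ForceCH
open Pool.Agent.Helper332.SADSpace (Scattered)

/-- A metrizable continuous image of a scattered compact space is countable. -/
theorem scattered_range {K : Type} [TopologicalSpace K] [CompactSpace K]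
    (hK : Scattered K) (g : K → ℕ → ℝ) (hg : Continuous g) : (range g).Countable := by
  classical
  by_contra hunc
  obtain ⟨D, hD, hDne, hDsub⟩ :=
    exists_perfect_nonempty_of_isClosed_of_not_countable (isCompact_range hg).isClosed hunc
  -- a minimal closed set mapped onto a superset of `D`
  obtain ⟨Z, hZ⟩ : ∃ Z : Set K, Minimal (fun Z => IsClosed Z ∧ D ⊆ g '' Z) Z := by
    apply zorn_superset
    intro c hc hch
    rcases c.eq_empty_or_nonempty with rfl | hne
    · exact ⟨univ, ⟨isClosed_univ, by rw [image_univ]; exact hDsub⟩, fun s hs => absurd hs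
        (notMem_empty s)⟩
    · refine ⟨⋂₀ c, ⟨isClosed_sInter fun s hs => (hc hs).1, fun y hy => ?_⟩,
        fun s hs => sInter_subset_of_mem hs⟩
      have hcl : ∀ s ∈ c, IsClosed (s ∩ g ⁻¹' {y}) := fun s hs =>
        (hc hs).1.inter (isClosed_singleton.preimage hg)
      have hne' : Nonempty c := hne.to_subtype
      have h1 : (⋂ s : c, (s.1 ∩ g ⁻¹' {y})).Nonempty := by
        apply IsCompact.nonempty_iInter_of_directed_nonempty_isCompact_isClosed
        · intro s t
          rcases hch.total s.2 t.2 with h | h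
          · exact ⟨s, subset_rfl, inter_subset_inter_left _ h⟩
          · exact ⟨t, inter_subset_inter_left _ h, subset_rfl⟩
        · intro s
          obtain ⟨x, hx, hxy⟩ := (hc s.2).2 hy
          exact ⟨x, hx, hxy⟩
        · exact fun s => (hcl s.1 s.2).isCompact
        · exact fun s => hcl s.1 s.2
      obtain ⟨x, hx⟩ := h1
      rw [mem_iInter] at hx
      obtain ⟨s0, hs0⟩ := hne
      exact ⟨x, fun s hs => (hx ⟨s, hs⟩).1, (hx ⟨s0, hs0⟩).2⟩
  have hZne : Z.Nonempty := by
    obtain ⟨y, hy⟩ := hDne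
    obtain ⟨x, hx, -⟩ := hZ.prop.2 hy
    exact ⟨x, hx⟩
  obtain ⟨x, hx, U, hU, hUZ⟩ := hK Z hZne
  have hZ' : IsClosed (Z \ U) := hZ.prop.1.sdiff hU
  have hnot : ¬ D ⊆ g '' (Z \ U) := by
    intro hsub
    have h1 := hZ.le_of_le ⟨hZ', hsub⟩ sdiff_subset
    have h2 : x ∈ U ∩ Z := by rw [hUZ]; rfl
    exact (h1 hx).2 h2.1
  obtain ⟨y, hy, hyn⟩ := not_subset.1 hnot
  have key : ∀ y' ∈ D, y' ∉ g '' (Z \ U) → y' = g x := by
    intro y' hy' hn
    obtain ⟨z, hz, rfl⟩ := hZ.prop.2 hy'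
    have : z ∈ U := by
      by_contra hzU
      exact hn ⟨z, ⟨hz, hzU⟩, rfl⟩
    have h2 : z ∈ U ∩ Z := ⟨this, hz⟩
    rw [hUZ] at h2
    rw [h2]
  have hyx := key y hy hyn
  have hacc := hD.acc y hy
  have hO : (g '' (Z \ U))ᶜ ∈ 𝓝 y :=
    (hZ'.isCompact.image hg).isClosed.isOpen_compl.mem_nhds hyn
  rw [accPt_iff_nhds] at hacc
  obtain ⟨y', hy', hne⟩ := hacc _ hO
  exact hne ((key y' hy'.2 hy'.1).trans hyx.symm)

/-- Under the continuum hypothesis `ω₁` many rows contain all initial segments. -/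
theorem exists_rows (hCH : (ℵ₁ : Cardinal.{0}) = 𝔠) (h : (Om → Prop) → (Om → Prop)) :
    ∃ Z : Om → (Om → Prop), ∀ y b, ∃ a, ∀ c, c < b →
      ((y c ↔ Z a c) ∧ (h y c ↔ h (Z a) c)) := by
  classical
  let R : Type := Σ b : Om, ({c : Om // c < b} → Prop × Prop)
  have hR : #R ≤ #Om := by
    rw [mk_sigma]
    have h1 : ∀ b : Om, #({c : Om // c < b} → Prop × Prop) ≤ 𝔠 := by
      intro b
      have := countable_Iio b
      rw [mk_arrow, lift_id, lift_id]
      calc #(Prop × Prop) ^ #{c : Om // c < b} ≤ 𝔠 ^ #{c : Om // c < b} := by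
            refine power_le_power_right ?_
            exact (mk_le_aleph0 (α := Prop × Prop)).trans aleph0_le_continuum
        _ ≤ 𝔠 ^ ℵ₀ := power_le_power_left continuum_ne_zero (mk_le_aleph0_iff.2 this)
        _ = 𝔠 := continuum_power_aleph0
    calc sum (fun b : Om => #({c : Om // c < b} → Prop × Prop)) ≤ sum (fun _ : Om => 𝔠) :=
          sum_le_sum _ _ h1
      _ = #Om * 𝔠 := by rw [sum_const']
      _ ≤ #Om := by
          rw [mk_toType, card_ord, ← hCH, mul_eq_self (aleph0_le_aleph 1)]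
  obtain ⟨ι⟩ := hR
  let restr : (Om → Prop) → ∀ b : Om, ({c : Om // c < b} → Prop × Prop) :=
    fun y b c => (y c.1, h y c.1)
  let Z : Om → (Om → Prop) := fun a =>
    if hex : ∃ y : Om → Prop, ∃ b, ι ⟨b, restr y b⟩ = a then hex.choose else fun _ => False
  refine ⟨Z, fun y b => ⟨ι ⟨b, restr y b⟩, ?_⟩⟩
  have hex : ∃ y' : Om → Prop, ∃ b', ι ⟨b', restr y' b'⟩ = ι ⟨b, restr y b⟩ := ⟨y, b, rfl⟩
  have hZ : Z (ι ⟨b, restr y b⟩) = hex.choose := dif_pos hex
  rw [hZ]
  obtain ⟨b', hb'⟩ := hex.choose_spec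
  generalize hex.choose = z at hb'
  have h1 := ι.injective hb'
  rw [Sigma.mk.injEq] at h1
  obtain ⟨rfl, h2⟩ := h1
  have h3 := eq_of_heq h2
  intro c hc
  have h4 := congrFun h3 ⟨c, hc⟩
  have h5 : (z c, h z c) = (y c, h y c) := h4
  rw [Prod.mk.injEq] at h5
  exact ⟨iff_of_eq h5.1.symm, iff_of_eq h5.2.symm⟩

end Pool.Agent.H728.CS
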