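import Mathlib
import Pool.Agent.H728.CS.Rows

/-!
# Compact images of `C_p(K)` for scattered compact `K` under the scheme principle
-/

set_option autoImplicit false

namespace Pool.Agent.H728.CS

open Cardinal Set Topology
open Pool.Agent.Helper292.ForceCH
open Pool.Agent.Helper332.SADSpace (Scattered)
open Pool.Agent.Helper937.Dya Pool.Agent.Helper937.Fact

theorem BB_ext {x y : ℝ} (h : ∀ b : BB, x ∈ (b : Set ℝ) ↔ y ∈ (b : Set ℝ)) : x = y := by
  by_contra hne
  obtain ⟨b, hb, hb'⟩ := BB_basis (x := x) (U := {y}ᶜ) isClosed_singleton.isOpen_compl hne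
  exact hb' ((h b).1 hb) rfl

/-- the topological part -/
theorem traces_countable {K : Type} [TopologicalSpace K] [CompactSpace K]
    (hK : Scattered K) {A' : Set K} (ι : A' × BB ↪ Om) (gZ : Om → Cp K) (G : ℕ → Om → Prop)
    (hG : ∀ k b, ∃ a, ∀ c, c < b → (G k c ↔ ∃ p : A' × BB, ι p = c ∧ (gZ a).1 p.1.1 ∈ (p.2 : Set ℝ))) :
    {A : Set ℕ | ∃ d : Finset Om, A = {k | ∀ c ∈ d, G k c}}.Countable := by
  classical
  -- the bits
  have hbit : ∀ (a : Om) (p : A' × BB), (∃ q : A' × BB, ι q = ι p ∧ (gZ a).1 q.1.1 ∈ (q.2 : Set ℝ)) ↔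
      (gZ a).1 p.1.1 ∈ (p.2 : Set ℝ) := by
    intro a p
    constructor
    · rintro ⟨q, hq, h⟩
      rw [ι.injective hq] at h
      exact h
    · exact fun h => ⟨p, rfl, h⟩
  -- agreement on countable sets
  have hagree : ∀ k (C : Set A'), C.Countable → ∃ a, ∀ x ∈ C, ∀ b : BB,
      (G k (ι (x, b)) ↔ (gZ a).1 x.1 ∈ (b : Set ℝ)) := by
    intro k C hC
    have hc : (ι '' (C ×ˢ (univ : Set BB))).Countable := (hC.prod countable_univ).image _
    obtain ⟨b0, hb0⟩ := bound_of_countable hc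
    obtain ⟨a, ha⟩ := hG k b0
    refine ⟨a, fun x hx b => ?_⟩
    rw [ha _ (hb0 _ ⟨(x, b), ⟨hx, mem_univ b⟩, rfl⟩), hbit]
  have hv : ∀ (x : A') (k : ℕ), ∃ r : ℝ, ∀ b : BB, (G k (ι (x, b)) ↔ r ∈ (b : Set ℝ)) := by
    intro x k
    obtain ⟨a, ha⟩ := hagree k {x} (countable_singleton x)
    exact ⟨(gZ a).1 x.1, fun b => ha x rfl b⟩
  choose Ψ hΨ using hv
  -- a countable dense set
  obtain ⟨S, hSc, hSd⟩ := TopologicalSpace.exists_countable_dense (range Ψ)
  let T : Set (ℕ → ℝ) := Subtype.val '' S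
  have hTc : T.Countable := hSc.image _
  have hTd : range Ψ ⊆ closure T := by
    intro y hy
    have h1 : (⟨y, hy⟩ : range Ψ) ∈ closure S := hSd ⟨y, hy⟩
    exact image_closure_subset_closure_image continuous_subtype_val ⟨_, h1, rfl⟩
  have hpre : ∀ t : T, ∃ x : A', Ψ x = t.1 := by
    rintro ⟨_, ⟨y, hy⟩, -, rfl⟩
    exact hy
  choose pt hpt using hpre
  have hTc' : Countable T := hTc.to_subtype
  choose a ha using fun k => hagree k (range pt) (countable_range pt)
  let g : K → ℕ → ℝ := fun x k => (gZ (a k)).1 x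
  have hg : Continuous g := continuous_pi fun k => (gZ (a k)).2
  have hgc := scattered_range hK g hg
  have hTg : T ⊆ range g := by
    intro t ht
    refine ⟨(pt ⟨t, ht⟩).1, ?_⟩
    funext k
    have h0 : t k = Ψ (pt ⟨t, ht⟩) k := by rw [hpt ⟨t, ht⟩]
    rw [h0]
    apply BB_ext
    intro b
    rw [← hΨ, ha k _ (mem_range_self _) b]
  have hΨc : (range Ψ).Countable :=
    hgc.mono (hTd.trans ((isCompact_range hg).isClosed.closure_subset_iff.2 hTg))
  -- single traces
  have h1 : (range fun c : Om => {k | G k c}).Countable := by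
    have h2 : (range fun c : Om => {k | G k c}) ⊆ insert ∅
        ((fun q : (ℕ → ℝ) × BB => {k | q.1 k ∈ (q.2 : Set ℝ)}) '' (range Ψ ×ˢ Set.univ)) := by
      rintro _ ⟨c, rfl⟩
      by_cases hc : c ∈ range ι
      · obtain ⟨⟨x, b⟩, rfl⟩ := hc
        refine Or.inr ⟨(Ψ x, b), ⟨mem_range_self x, mem_univ b⟩, ?_⟩
        ext k
        exact (hΨ x k b).symm
      · refine Or.inl ?_
        ext k
        simp only [mem_ofPred_eq, mem_empty_iff_false, iff_false]
        intro h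
        obtain ⟨c', hc'⟩ := exists_gt c
        obtain ⟨a', ha'⟩ := hG k c'
        obtain ⟨p, hp, -⟩ := (ha' c hc').1 h
        exact hc ⟨p, hp⟩
    exact ((((hΨc.prod countable_univ).image _)).insert _).mono h2
  have h3 := (Set.countable_ofPred_finite_subset h1).image (fun s : Set (Set ℕ) => ⋂₀ s)
  refine h3.mono ?_
  rintro _ ⟨d, rfl⟩
  refine ⟨(fun c : Om => {k | G k c}) '' (d : Set Om), ⟨(d.finite_toSet).image _,
    image_subset_range _ _⟩, ?_⟩
  ext k
  simp

/-- Under the continuum hypothesis and the scheme principle, every compact continuous image of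
`C_p(K)` is metrizable, for every scattered compact space `K`. -/
theorem images_metrizable (hCH : (ℵ₁ : Cardinal.{0}) = 𝔠) (hP : SchemePrinciple)
    (X : Type) [TopologicalSpace X] [CompactSpace X] [T2Space X] (hX : Scattered X)
    (Y : Type) [TopologicalSpace Y] [CompactSpace Y] [T2Space Y] (φ : Cp X → Y)
    (hφ : Continuous φ) (hs : Function.Surjective φ) : TopologicalSpace.MetrizableSpace Y := by
  classical
  let e : Cp X → X → ℝ := fun f => f.1
  have hd : DenseRange e := denseRange_Cp X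
  have he : IsInducing e := IsInducing.subtypeVal
  by_cases hg : ∃ A : Set X, A.Countable ∧ Good e φ A
  · obtain ⟨A, hA, hgood⟩ := hg
    exact metrizable_of_good e φ he hφ hs A hA hgood
  exfalso
  obtain ⟨J, hJ, hsep, hpat⟩ := dichotomy e φ hd hg
  have hur : ∀ p ∈ J, ∃ (f : C(Y, ℝ)) (A : Set X), A.Countable ∧
      EqOn f 0 (Cl e φ p.1 p.2.1) ∧ EqOn f 1 (Cl e φ p.1 p.2.2) ∧
      ∀ (s : Cp X) (U : Set ℝ), IsOpen U → f (φ s) ∈ U →
        ∃ (G : Finset X) (b : X → BB), (G : Set X) ⊆ A ∧ e s ∈ Box G b ∧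
          ∀ z : Cp X, e z ∈ Box G b → f (φ z) ∈ U := by
    intro p hp
    obtain ⟨f, h1, h2, h3⟩ := exists_continuous_zero_one_of_isClosed
      (s := Cl e φ p.1 p.2.1) (t := Cl e φ p.1 p.2.2) isClosed_closure isClosed_closure (hsep p hp)
    have hK : CTight (Set.Icc (0:ℝ) 1) := by
      intro A x hx
      obtain ⟨s, hs, hs2⟩ := mem_closure_iff_seq_limit.mp hx
      refine ⟨range s, range_subset_iff.mpr hs, countable_range s, ?_⟩
      exact mem_closure_of_tendsto hs2 (Filter.Eventually.of_forall fun n => mem_range_self n)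
    let ψ : Cp X → Set.Icc (0:ℝ) 1 := fun s => ⟨f (φ s), h3 (φ s)⟩
    have hψ : Continuous ψ := (f.continuous.comp hφ).subtype_mk _
    obtain ⟨A, hA, hfac⟩ := factor e ψ he hd hK hψ
    refine ⟨f, A, hA, h1, h2, fun s U hU hsU => ?_⟩
    obtain ⟨G, b, hG, hb, himg⟩ := hfac s (Subtype.val ⁻¹' U) (hU.preimage continuous_subtype_val) hsU
    exact ⟨G, b, hG, hb, fun z hz => himg z hz⟩
  choose! f A hAc hf0 hf1 hfac using hur
  have hcard : #Om ≤ #J := by
    have h1 : #Om = ℵ₁ := by rw [mk_toType, card_ord]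
    rw [h1]
    have : ℵ₀ < #J := by
      rw [← not_le, Cardinal.le_aleph0_iff_set_countable]
      exact hJ
    rw [← Cardinal.succ_aleph0]
    exact Order.succ_le_of_lt this
  obtain ⟨q⟩ : Nonempty (Om ↪ J) := hcard
  let A' : Set X := ⋃ w : Om, A (q w).1
  have hA' : #A' ≤ ℵ₁ := by
    refine (Cardinal.mk_iUnion_le_sum_mk).trans ?_
    refine (Cardinal.sum_le_sum _ (fun _ => ℵ₀) (fun w =>
      Cardinal.le_aleph0_iff_set_countable.mpr (hAc _ (q w).2))).trans ?_
    rw [Cardinal.sum_const', mk_toType, card_ord]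
    exact (mul_le_mul' le_rfl Cardinal.aleph0_lt_aleph_one.le).trans
      (Cardinal.mul_eq_self (Cardinal.aleph0_le_aleph 1)).le
  have hι : #(A' × BB) ≤ #Om := by
    rw [mk_prod, lift_id, lift_id, mk_toType, card_ord]
    exact (mul_le_mul' hA' ((mk_le_aleph0 (α := BB)).trans aleph0_lt_aleph_one.le)).trans
      (Cardinal.mul_eq_self (Cardinal.aleph0_le_aleph 1)).le
  obtain ⟨ι⟩ : Nonempty (A' × BB ↪ Om) := hι
  -- every pattern is realised
  have hreal : ∀ y : Om → Prop, ∃ g : Cp X, ∀ j : Om,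
      (y j → f (q j).1 (φ g) = 1) ∧ (¬ y j → f (q j).1 (φ g) = 0) := by
    intro y
    let BB' : Set (Tup X) := {p | ∃ j, y j ∧ p = (q j).1}
    obtain ⟨k, hk⟩ := hpat BB'
    obtain ⟨g, rfl⟩ := hs k
    refine ⟨g, fun j => ⟨fun hj => hf1 _ (q j).2 ((hk _ (q j).2).1 ⟨j, hj, rfl⟩),
      fun hj => hf0 _ (q j).2 ((hk _ (q j).2).2 ?_)⟩⟩
    rintro ⟨j', hj', heq⟩
    have : q j = q j' := Subtype.ext heq
    exact hj (q.injective this ▸ hj')
  choose g hg1 hg0 using hreal
  let bits : Cp X → Om → Prop := fun s c => ∃ p : A' × BB, ι p = c ∧ s.1 p.1.1 ∈ (p.2 : Set ℝ)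
  let M : Om → Set (Finset Om) := fun j => {d | (∀ c ∈ d, ∃ p : A' × BB, ι p = c ∧ p.1.1 ∈ A (q j).1) ∧
    ∀ s : Cp X, (∀ c ∈ d, bits s c) → f (q j).1 (φ s) ∈ Ioi (1/2 : ℝ)}
  have hM : ∀ j, (M j).Countable := by
    intro j
    have hc : (ι '' {p : A' × BB | p.1.1 ∈ A (q j).1}).Countable := by
      refine Countable.image ?_ _
      have h1 : {p : A' × BB | p.1.1 ∈ A (q j).1} ⊆
          (Subtype.val ⁻¹' (A (q j).1) : Set A') ×ˢ (univ : Set BB) := fun p hp => ⟨hp, mem_univ _⟩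
      exact (((hAc _ (q j).2).preimage Subtype.val_injective).prod countable_univ).mono h1
    have h2 := Set.countable_ofPred_finite_subset hc
    have h3 : M j ⊆ (fun d : Finset Om => (d : Set Om)) ⁻¹'
        {t : Set Om | t.Finite ∧ t ⊆ ι '' {p : A' × BB | p.1.1 ∈ A (q j).1}} := by
      intro d hd
      refine ⟨d.finite_toSet, fun c hc => ?_⟩
      obtain ⟨p, hp, hp2⟩ := hd.1 c hc
      exact ⟨p, hp2, hp⟩
    exact (h2.preimage Finset.coe_injective).mono h3
  obtain ⟨Z, hZ⟩ := exists_rows hCH (fun y => bits (g y))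
  have hrow : ∀ a j, Z a j ↔ ∃ d ∈ M j, ∀ c ∈ d, bits (g (Z a)) c := by
    intro a j
    constructor
    · intro h
      have h1 := hg1 (Z a) j h
      obtain ⟨G, b, hG, hb, himg⟩ := hfac _ (q j).2 (g (Z a)) (Ioi (1/2 : ℝ)) isOpen_Ioi
        (by rw [h1]; simp only [mem_Ioi]; norm_num)
      have hGA : ∀ t ∈ G, t ∈ A' := fun t ht => mem_iUnion.2 ⟨j, hG (Finset.mem_coe.2 ht)⟩
      refine ⟨G.attach.image fun t => ι (⟨t.1, hGA t.1 t.2⟩, b t.1), ⟨?_, ?_⟩, ?_⟩
      · intro c hc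
        rw [Finset.mem_image] at hc
        obtain ⟨t, -, rfl⟩ := hc
        exact ⟨_, rfl, hG (Finset.mem_coe.2 t.2)⟩
      · intro s hs'
        refine himg s fun t ht => ?_
        obtain ⟨p, hp, hp2⟩ := hs' (ι (⟨t, hGA t ht⟩, b t))
          (Finset.mem_image.2 ⟨⟨t, ht⟩, Finset.mem_attach _ _, rfl⟩)
        rw [ι.injective hp] at hp2
        exact hp2
      · intro c hc
        rw [Finset.mem_image] at hc
        obtain ⟨t, -, rfl⟩ := hc
        exact ⟨_, rfl, hb t.1 t.2⟩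
    · rintro ⟨d, hd, hd2⟩
      by_contra hn
      have h1 := hd.2 _ hd2
      rw [hg0 (Z a) j hn] at h1
      simp only [mem_Ioi] at h1
      norm_num at h1
  have hfull : Full (fun a => Z a) (fun a => bits (g (Z a))) := fun y =>
    ⟨bits (g y), fun b => hZ y b⟩
  obtain ⟨G, hG, hunc⟩ := core (hP _ _ hfull) M hM hrow
  exact hunc (traces_countable hX ι (fun a => g (Z a)) G hG)

end Pool.Agent.H728.CS
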